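import Mathlib
import Pool.Agent.W495.FM.Defs

/-!
# Chow–Künneth filtrations of isotrivial varieties over function fields: definitions
-/

set_option autoImplicit false

namespace Pool.Agent.Run7.h312.MU

open Pool.Agent.W495.TA Pool.Agent.W495.FM

/-- `f` is additive. -/
def IsAdd {A B : Type} [AddCommGroup A] [AddCommGroup B] (f : A → B) : Prop :=
  ∀ x y, f (x + y) = f x + f y

/-- Data of a smooth projective variety `X` over a field: the Chow groups `CH i = CH^i(X)` with
rational coefficients, the cohomology groups `H n = H^n(X)`, the ring `Corr` of correspondences of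
degree zero (the product is the composition), which acts on them, and the cycle class map `cl`. -/
structure Variety where
  CH : ℕ → Type
  [chgrp : ∀ i, AddCommGroup (CH i)]
  H : ℕ → Type
  [hgrp : ∀ n, AddCommGroup (H n)]
  Corr : Type
  [ring : Ring Corr]
  act : ∀ i, Corr → CH i → CH i
  coh : ∀ n, Corr → H n → H n
  cl : ∀ i, CH i → H (2 * i)

attribute [instance] Variety.chgrp Variety.hgrp Variety.ring

/-- `γ` acts as zero on `H^n(X)`. -/
def Variety.Zero (X : Variety) (n : ℕ) (γ : X.Corr) : Prop := ∀ x, X.coh n γ x = 0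

/-- The correspondences form a ring which operates on the Chow groups and on the cohomology. -/
structure Variety.IsVariety (X : Variety) : Prop where
  add_act : ∀ i γ δ z, X.act i (γ + δ) z = X.act i γ z + X.act i δ z
  mul_act : ∀ i γ δ z, X.act i (γ * δ) z = X.act i γ (X.act i δ z)
  one_act : ∀ i z, X.act i 1 z = z
  add_coh : ∀ n γ δ x, X.coh n (γ + δ) x = X.coh n γ x + X.coh n δ x
  one_coh : ∀ n x, X.coh n 1 x = x

/-- `π` is a Chow–Künneth decomposition of `X`: orthogonal idempotent correspondences with sum one
(`π m = 0` if `m` is larger than twice the dimension) such that `π m` is the identity on `H^m(X)` and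
zero on `H^n(X)` for `n ≠ m`. -/
structure IsCK (X : Variety) (π : ℕ → X.Corr) : Prop where
  idem : ∀ m, π m * π m = π m
  orth : ∀ m n, m ≠ n → π m * π n = 0
  sum : ∃ d, (∀ m, d < m → π m = 0) ∧ ∑ m ∈ Finset.range (d + 1), π m = 1
  coh : ∀ m x, X.coh m (π m) x = x
  zero : ∀ m n, m ≠ n → X.Zero n (π m)

/-- `z` belongs to `F^k CH^i(X) = (π (2 i - k) + ⋯ + π 0)_* CH^i(X)` (zero for `k > 2 i`). -/
def InF (X : Variety) (π : ℕ → X.Corr) (i k : ℕ) (z : X.CH i) : Prop :=
  ∃ w, z = X.act i (∑ m ∈ Finset.range (2 * i + 1 - k), π m) w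

/-- Data of the cycles of a smooth projective variety `P` over a finite field: the Chow groups `A i =
CH^i(P)` with rational coefficients, the `ℓ`-adic cohomology groups `B i = H^(2 i)(P)` over the
algebraic closure (with coefficients extended to an algebraically closed field) and the cycle class
map `cl`. -/
structure Cyc where
  A : ℕ → Type
  [agrp : ∀ i, AddCommGroup (A i)]
  B : ℕ → Type
  [bgrp : ∀ i, AddCommGroup (B i)]
  cl : ∀ i, A i → B i

attribute [instance] Cyc.agrp Cyc.bgrp

/-- Operations on the cycles of codimension `i` and on the cohomology of `P`. -/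
structure Op (P : Cyc) (i : ℕ) where
  f : P.A i → P.A i
  g : P.B i → P.B i
  add : IsAdd f
  cl : ∀ z, P.cl i (f z) = g (P.cl i z)

/-- `X` over the function field of `Y` is the base change of a smooth projective variety `X₀` over
the finite field, and `P = X₀ × Y`. `res` is the restriction `CH^i(P) → CH^i(X)` to the generic fibre;
`comp i l` is the Künneth component in `G i l = H^(2 i - l)(X) ⊗ H^l(Y)` of a class in `H^(2 i)(P)`. -/
structure Fibre (X : Variety) (P : Cyc) where
  G : ℕ → ℕ → Type
  [grp : ∀ i l, AddCommGroup (G i l)]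
  res : ∀ i, P.A i → X.CH i
  comp : ∀ i l, P.B i → G i l

attribute [instance] Fibre.grp

/-- The properties of a constant variety over a function field that are used: the restriction to the
generic fibre is additive and surjective (closure of cycles); the Künneth formula; the class of the
restriction of a cycle `z` is the component of the class of `z` in `H^(2 i)(X) ⊗ H^0(Y)`; each
correspondence `γ` of the generic fibre is the restriction of a correspondence of `P` over `Y`, which
acts on the cycles and the cohomology of `P` and induces `γ` on the generic fibre; in cohomology it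
respects the filtration by the degree in `Y`, and on the part of degree `l` in `Y` it induces the
operation of `γ` on the first factor of `H^(2 i - l)(X) ⊗ H^l(Y)`, so zero if this is zero. -/
structure Fibre.IsConstant {X : Variety} {P : Cyc} (c : Fibre X P) : Prop where
  add : ∀ i, IsAdd (P.cl i)
  res_add : ∀ i, IsAdd (c.res i)
  onto : ∀ i z, ∃ w, c.res i w = z
  comp_add : ∀ i l, IsAdd (c.comp i l)
  kuenneth : ∀ i e, (∀ l, l ≤ 2 * i → c.comp i l e = 0) → e = 0
  cl : ∀ i z, X.cl i (c.res i z) = 0 ↔ c.comp i 0 (P.cl i z) = 0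
  corr : ∀ i γ, ∃ h : Op P i, (∀ z, c.res i (h.f z) = X.act i γ (c.res i z)) ∧
    ∀ l e, l ≤ 2 * i → (∀ j, j < l → c.comp i j e = 0) →
      (∀ j, j < l → c.comp i j (h.g e) = 0) ∧ (X.Zero (2 * i - l) γ → c.comp i l (h.g e) = 0)

/-- The properties that follow from the standard conjecture of Lefschetz type for `X₀` (known for
abelian varieties, curves, products of them, and so on): for `i < l` the projection to the component
in `H^(2 i - l)(X) ⊗ H^l(Y)` is the operation on `CH^i(P)` of an algebraic correspondence of `X₀` that
factors over `CH^c(P)` with `c > dim X₀`; so the image consists of cycles with support over a closed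
subset of `Y` and is zero on the generic fibre. -/
def Fibre.IsLefschetz {X : Variety} {P : Cyc} (c : Fibre X P) : Prop :=
  ∀ i l : ℕ, i < l → l ≤ 2 * i → ∃ h : Op P i, (∀ z, c.res i (h.f z) = 0) ∧
    (∀ e, c.comp i l (h.g e) = c.comp i l e) ∧ ∀ j e, j ≠ l → c.comp i j (h.g e) = 0

/-- Data for a variety `X'` the motive of which is, over an extension of the field, a direct summand
of the motive of `X`: `ι` is the injection of Chow groups, `φ γ = a ∘ γ ∘ b`, where `a` and `b` with
`b ∘ a = 1` are the inclusion and the projection. -/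
structure Summand (X' X : Variety) where
  ι : ∀ i, X'.CH i → X.CH i
  φ : X'.Corr → X.Corr

/-- The properties of the data that are used: `ι` has the kernel zero, it is compatible with the
operation of correspondences, if `γ` is zero on `H^n(X')` then `φ γ` is zero on `H^n(X)`, and a cycle is
homologically trivial if and only if its image is. -/
structure Summand.IsSummand {X' X : Variety} (s : Summand X' X) : Prop where
  inj : ∀ i z, s.ι i z = 0 → z = 0
  act : ∀ i γ z, s.ι i (X'.act i γ z) = X.act i (s.φ γ) (s.ι i z)
  coh : ∀ n γ, X'.Zero n γ → X.Zero n (s.φ γ)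
  cl : ∀ i z, X.cl i (s.ι i z) = 0 ↔ X'.cl i z = 0

/-- **All Chow–Künneth decompositions of `X` induce the same filtration `Φ`** of `CH^i(X)`, for all
`i`; it satisfies `Φ^0 = CH^i(X)` and `Φ^1 = ker (cl)`, it is respected by all correspondences `γ`, and
`γ` maps `Φ^k` to `Φ^(k + 1)` if it is zero on `H^(2 i - k)(X)`. -/
def OneFiltration (X : Variety) : Prop :=
  ∀ i, ∃ Φ : ℕ → X.CH i → Prop, (∀ z, Φ 0 z) ∧ (∀ z, Φ 1 z ↔ X.cl i z = 0) ∧
    (∀ γ k z, Φ k z → Φ k (X.act i γ z) ∧ (X.Zero (2 * i - k) γ → Φ (k + 1) (X.act i γ z))) ∧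
    ∀ π, IsCK X π → ∀ k z, InF X π i k z ↔ Φ k z

/-- `F^(i + 1) CH^i(X) = 0` for all `i` and all Chow–Künneth decompositions. -/
def Ends (X : Variety) : Prop := ∀ π, IsCK X π → ∀ i z, InF X π i (i + 1) z → z = 0

/-- The motive of `P` is a direct summand of a finite direct sum of twists of motives of abelian
varieties `Y k` with the property `S`: the inclusion gives homomorphisms `f k : CH^i(P) → CH^(c k)(Y k)`
which are compatible with homomorphisms `F k` of the cohomology groups, and their common kernel is
zero. (Summands with `c k < 0` or `c k > dim Y k` do not contribute.) -/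
def IsSummandOfTwists {p : ℕ} [Fact p.Prime] {ν : PadicAlgCl p ≃+* ℂ} {Ω : Type} [Field Ω]
    [CharZero Ω] (S : ∀ Y : RedAV p ν, Cycles Ω Y → Prop) (P : Cyc) : Prop :=
  ∀ i, ∃ (n : ℕ) (Y : Fin n → RedAV p ν) (C : ∀ k, Cycles Ω (Y k)) (c c' : Fin n → ℕ)
    (f : ∀ k, P.A i → (C k).CH (c k)) (F : ∀ k, P.B i → Coh Ω (Y k) (2 * c k)),
    (∀ k, S (Y k) (C k) ∧ HasDim (Y k) (c' k + c k) ∧ F k 0 = 0 ∧
      ∀ z, (C k).cl (c k) (f k z) = F k (P.cl i z)) ∧
    ∀ z, (∀ k, f k z = 0) → z = 0

/-- The statements for all varieties `X'` that are, over an extension of the function field, direct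
summands of constant varieties `X` such that the motive of `P = X₀ × Y` is a direct summand of a sum
of twists of motives of abelian varieties with the property `S`. -/
def HoldsFor {p : ℕ} [Fact p.Prime] (ν : PadicAlgCl p ≃+* ℂ)
    (S : ∀ (Ω : Type) [Field Ω] [CharZero Ω] (Y : RedAV p ν), Cycles Ω Y → Prop) : Prop :=
  ∀ (Ω : Type) [Field Ω] [IsAlgClosed Ω] [CharZero Ω] (P : Cyc) (X X' : Variety)
    (c : Fibre X P) (s : Summand X' X), IsSummandOfTwists (S Ω) P → X'.IsVariety →
    c.IsConstant → s.IsSummand → OneFiltration X' ∧ (c.IsLefschetz → Ends X')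

end Pool.Agent.Run7.h312.MU
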