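import Mathlib
import Pool.Agent.Run7.h312.MU.Defs
import Pool.Agent.W495.FM.Hom

/-!
# Chow–Künneth filtrations of isotrivial varieties over function fields
-/

set_option autoImplicit false

namespace Pool.Agent.Run7.h312.MU

open Pool.Agent.W495.TA

theorem add_zero' {A B : Type} [AddCommGroup A] [AddCommGroup B] {f : A → B} (h : IsAdd f) :
    f 0 = 0 := by
  have h1 := h 0 0
  rw [add_zero] at h1
  exact left_eq_add.1 h1

theorem add_sum' {A B : Type} [AddCommGroup A] [AddCommGroup B] {f : A → B} (h : IsAdd f)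
    {ι : Type} (s : Finset ι) (u : ι → A) : f (∑ i ∈ s, u i) = ∑ i ∈ s, f (u i) :=
  map_sum (AddMonoidHom.mk' f h) u s

theorem add_sub' {A B : Type} [AddCommGroup A] [AddCommGroup B] {f : A → B} (h : IsAdd f)
    (x y : A) : f (x - y) = f x - f y :=
  map_sub (AddMonoidHom.mk' f h) x y

/-! ### Uniqueness of the filtration -/

section Unique

variable {X : Variety} (hX : X.IsVariety)

include hX

theorem act_sub (i : ℕ) (γ δ : X.Corr) (z : X.CH i) :
    X.act i (γ - δ) z = X.act i γ z - X.act i δ z := by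
  have h := hX.add_act i (γ - δ) δ z
  rw [sub_add_cancel] at h
  rw [h, add_sub_cancel_right]

theorem act_zero (i : ℕ) (z : X.CH i) : X.act i 0 z = 0 := by
  have h := act_sub hX i 0 0 z
  rw [sub_zero, sub_self] at h
  exact h

theorem coh_sub (n : ℕ) (γ δ : X.Corr) (x : X.H n) :
    X.coh n (γ - δ) x = X.coh n γ x - X.coh n δ x := by
  have h := hX.add_coh n (γ - δ) δ x
  rw [sub_add_cancel] at h
  rw [h, add_sub_cancel_right]

theorem coh_zero (n : ℕ) (x : X.H n) : X.coh n 0 x = 0 := by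
  have h := coh_sub hX n 0 0 x
  rw [sub_zero, sub_self] at h
  exact h

theorem coh_sum' (n : ℕ) (s : Finset ℕ) (π : ℕ → X.Corr) (x : X.H n) :
    X.coh n (∑ m ∈ s, π m) x = ∑ m ∈ s, X.coh n (π m) x := by
  induction s using Finset.induction_on with
  | empty => rw [Finset.sum_empty, Finset.sum_empty, coh_zero hX]
  | insert a s ha ih => rw [Finset.sum_insert ha, Finset.sum_insert ha, hX.add_coh, ih]

theorem coh_sum (π : ℕ → X.Corr) (h : IsCK X π) (n j : ℕ) (x : X.H j) :
    X.coh j (∑ m ∈ Finset.range n, π m) x = if j < n then x else 0 := by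
  rw [coh_sum' hX]
  split_ifs with hj
  · rw [Finset.sum_eq_single j]
    · exact h.coh j x
    · intro l _ hl
      exact h.zero l j hl x
    · intro h1
      exact absurd (Finset.mem_range.2 hj) h1
  · refine Finset.sum_eq_zero fun l hl => h.zero l j ?_ x
    rintro rfl
    exact hj (Finset.mem_range.1 hl)

omit hX in
theorem sum_idem {π : ℕ → X.Corr} (h : IsCK X π) (n : ℕ) :
    (∑ m ∈ Finset.range n, π m) * (∑ m ∈ Finset.range n, π m) = ∑ m ∈ Finset.range n, π m := by
  rw [Finset.sum_mul_sum]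
  refine Finset.sum_congr rfl fun m hm => ?_
  rw [Finset.sum_eq_single m]
  · exact h.idem m
  · intro l _ hl
    exact h.orth m l hl.symm
  · intro h1
    exact absurd hm h1

/-- A filtration such that the correspondences operate on the graded parts through cohomology is the
filtration of each Chow–Künneth decomposition. -/
theorem unique {i : ℕ} {Φ : ℕ → X.CH i → Prop} (h0 : ∀ z, Φ 0 z)
    (hend : ∀ k z, 2 * i < k → Φ k z → z = 0) (hz : ∀ k, Φ k 0)
    (hact : ∀ γ k z, Φ k z → Φ k (X.act i γ z))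
    (hgr : ∀ γ k z, X.Zero (2 * i - k) γ → Φ k z → Φ (k + 1) (X.act i γ z))
    {π : ℕ → X.Corr} (h : IsCK X π) (k : ℕ) (b : X.CH i) : InF X π i k b ↔ Φ k b := by
  unfold InF
  by_cases hk : k ≤ 2 * i
  · set E := ∑ m ∈ Finset.range (2 * i + 1 - k), π m with hE
    have hidem : E * E = E := sum_idem h _
    have hact' : ∀ z, X.act i E (X.act i E z) = X.act i E z := by
      intro z
      rw [← hX.mul_act, hidem]
    constructor
    · rintro ⟨z, rfl⟩
      have h1 : ∀ n, n ≤ k → Φ n (X.act i E z) := by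
        intro n
        induction n with
        | zero => intro _; exact h0 _
        | succ n ih =>
          intro hn
          rw [← hact']
          refine hgr E n _ (fun x => ?_) (ih (by omega))
          rw [hE, coh_sum hX π h, if_neg (by omega)]
      exact h1 k le_rfl
    · intro hb
      have hR : (1 - E) * (1 - E) = 1 - E := by
        rw [sub_mul, mul_sub, mul_sub, hidem]
        simp
      have hactR : X.act i (1 - E) (X.act i (1 - E) b) = X.act i (1 - E) b := by
        rw [← hX.mul_act, hR]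
      have hZ : ∀ n, k ≤ n → n ≤ 2 * i → X.Zero (2 * i - n) (1 - E) := by
        intro n h1 h2 x
        rw [coh_sub hX, hX.one_coh, hE, coh_sum hX π h, if_pos (by omega), sub_self]
      have h1 : ∀ n, k + n ≤ 2 * i + 1 → Φ (k + n) (X.act i (1 - E) b) := by
        intro n
        induction n with
        | zero => intro _; exact hact _ k b hb
        | succ n ih =>
          intro hn
          rw [← hactR]
          exact hgr (1 - E) (k + n) _ (hZ _ (by omega) (by omega)) (ih (by omega))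
      have h2 := h1 (2 * i + 1 - k) (by omega)
      have h3 := hend _ _ (by omega) h2
      refine ⟨b, ?_⟩
      rw [act_sub hX, hX.one_act, sub_eq_zero] at h3
      exact h3
  · rw [show 2 * i + 1 - k = 0 by omega]
    constructor
    · rintro ⟨z, rfl⟩
      rw [Finset.range_zero, Finset.sum_empty, act_zero hX]
      exact hz k
    · intro hb
      refine ⟨0, ?_⟩
      rw [hend k b (by omega) hb, Finset.range_zero, Finset.sum_empty, act_zero hX]

end Unique

/-! ### The constant variety -/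

section Constant

variable {X X' : Variety} {P : Cyc}

/-- The component of the class of a cycle. -/
def cmp (c : Fibre X P) (i l : ℕ) (z : P.A i) : c.G i l := c.comp i l (P.cl i z)

/-- The filtration of the Chow group of the constant variety by the degree in `Y`. -/
def Psi (c : Fibre X P) (i k : ℕ) (b : X.CH i) : Prop :=
  ∃ z, c.res i z = b ∧ ∀ l, l < k → l ≤ 2 * i → cmp c i l z = 0

variable (hTB : ∀ i z, P.cl i z = 0 → z = 0) {c : Fibre X P} (hc : c.IsConstant)

include hc

theorem cmp_add (i l : ℕ) : IsAdd (cmp c i l) := by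
  intro x y
  unfold cmp
  rw [hc.add, hc.comp_add]

theorem psi_zero (i : ℕ) (b : X.CH i) : Psi c i 0 b := by
  obtain ⟨z, rfl⟩ := hc.onto i b
  exact ⟨z, rfl, fun l h _ => absurd h (Nat.not_lt_zero l)⟩

theorem psi_mem_zero (i k : ℕ) : Psi c i k 0 :=
  ⟨0, add_zero' (hc.res_add i), fun l _ _ => add_zero' (cmp_add hc i l)⟩

theorem psi_one (i : ℕ) (b : X.CH i) : Psi c i 1 b ↔ X.cl i b = 0 := by
  constructor
  · rintro ⟨z, rfl, hz⟩
    rw [hc.cl]
    exact hz 0 one_pos (Nat.zero_le _)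
  · intro hb
    obtain ⟨z, rfl⟩ := hc.onto i b
    refine ⟨z, rfl, fun l h1 _ => ?_⟩
    obtain rfl : l = 0 := by omega
    exact (hc.cl i z).1 hb

include hTB

theorem zero_of_cmp (i : ℕ) (z : P.A i)
    (hz : ∀ l, l ≤ 2 * i → cmp c i l z = 0) : z = 0 :=
  hTB i z (hc.kuenneth i _ fun l hl => hz l hl)

theorem psi_end (i k : ℕ) (hk : 2 * i < k) (b : X.CH i) (hb : Psi c i k b) : b = 0 := by
  obtain ⟨z, rfl, hz⟩ := hb
  rw [zero_of_cmp hTB hc i z fun l hl => hz l (by omega) hl]
  exact add_zero' (hc.res_add i)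

theorem psi_act (i k : ℕ) (γ : X.Corr) (b : X.CH i) (hb : Psi c i k b) :
    Psi c i k (X.act i γ b) ∧ (X.Zero (2 * i - k) γ → Psi c i (k + 1) (X.act i γ b)) := by
  have hq : ∃ h : Op P i, (∀ z, c.res i (h.f z) = X.act i γ (c.res i z)) ∧
      ∀ l e, l ≤ 2 * i → (∀ j, j < l → c.comp i j e = 0) →
      (∀ j, j < l → c.comp i j (h.g e) = 0) ∧ (X.Zero (2 * i - l) γ → c.comp i l (h.g e) = 0) :=
    hc.corr i γ
  obtain ⟨h, h1, h2⟩ := hq
  have hreg : ∀ l z, cmp c i l (h.f z) = c.comp i l (h.g (P.cl i z)) := by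
    intro l z
    unfold cmp
    rw [h.cl]
  by_cases hk : k ≤ 2 * i
  · obtain ⟨z, rfl, hz⟩ := hb
    have h3 := h2 k (P.cl i z) hk fun j hj => hz j hj (by omega)
    refine ⟨⟨h.f z, h1 z, fun l hl hl' => ?_⟩, fun hγ => ⟨h.f z, h1 z, fun l hl hl' => ?_⟩⟩
    · rw [hreg]
      exact h3.1 l hl
    · rw [hreg]
      rcases Nat.lt_succ_iff_lt_or_eq.1 hl with h4 | rfl
      · exact h3.1 l h4
      · exact h3.2 hγ
  · have hb0 := psi_end hTB hc i k (by omega) b hb
    have hab : X.act i γ b = 0 := by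
      have h3 : c.res i (h.f 0) = X.act i γ (c.res i 0) := h1 0
      rw [add_zero' h.add, add_zero' (hc.res_add i)] at h3
      rw [hb0, ← h3]
    rw [hab]
    exact ⟨psi_mem_zero hc i k, fun _ => psi_mem_zero hc i (k + 1)⟩

theorem psi_lefschetz (hL : c.IsLefschetz) (i : ℕ) (b : X.CH i) (hb : Psi c i (i + 1) b) :
    b = 0 := by
  obtain ⟨z, rfl, hz⟩ := hb
  have hex : ∀ l, ∃ u : P.A i, (c.res i u = 0) ∧
      (i < l → l ≤ 2 * i → cmp c i l u = cmp c i l z) ∧
      ∀ j, j ≠ l → cmp c i j u = 0 := by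
    intro l
    by_cases hl : i < l ∧ l ≤ 2 * i
    · obtain ⟨h, h1, h2, h3⟩ := hL i l hl.1 hl.2
      refine ⟨h.f z, h1 z, fun _ _ => ?_, fun j hj => ?_⟩
      · unfold cmp
        rw [h.cl, h2]
      · unfold cmp
        rw [h.cl, h3 j _ hj]
    · exact ⟨0, add_zero' (hc.res_add i), fun h1 h2 => absurd ⟨h1, h2⟩ hl,
        fun j _ => add_zero' (cmp_add hc i j)⟩
  choose u hu1 hu2 hu3 using hex
  have h1 : z - ∑ l ∈ Finset.Ioc i (2 * i), u l = 0 := by
    refine zero_of_cmp hTB hc i _ fun j hj => ?_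
    rw [add_sub' (cmp_add hc i j), add_sum' (cmp_add hc i j)]
    by_cases hij : i < j
    · rw [Finset.sum_eq_single j]
      · rw [hu2 j hij hj, sub_self]
      · intro l _ hl
        exact hu3 l j hl.symm
      · intro h2
        exact absurd (Finset.mem_Ioc.2 ⟨hij, hj⟩) h2
    · rw [hz j (by omega) hj, Finset.sum_eq_zero, sub_zero]
      intro l hl
      refine hu3 l j ?_
      rintro rfl
      exact hij (Finset.mem_Ioc.1 hl).1
  rw [sub_eq_zero.1 h1, add_sum' (hc.res_add i)]
  exact Finset.sum_eq_zero fun l _ => hu1 l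

/-! ### Summands -/

theorem oneFiltration {s : Summand X' X} (hs : s.IsSummand) (hX' : X'.IsVariety) :
    OneFiltration X' ∧ (c.IsLefschetz → Ends X') := by
  have hι0 : ∀ i, Psi c i 0 (s.ι i 0) → True := fun _ _ => trivial
  have hzero : ∀ i, s.ι i 0 = 0 := by
    intro i
    obtain ⟨z, hz⟩ := hc.onto i (s.ι i 0)
    have h1 := hs.act i 0 0
    rw [act_zero hX'] at h1
    have h2 : X.act i (s.φ 0) (s.ι i 0) = s.ι i 0 := h1.symm
    have h3 : ∀ n, X.Zero n (s.φ 0) := fun n => hs.coh n 0 fun x => coh_zero hX' n x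
    have h4 : ∀ k, Psi c i k (s.ι i 0) := by
      intro k
      induction k with
      | zero => exact psi_zero hc i _
      | succ k ih =>
        rw [← h2]
        exact (psi_act hTB hc i k _ _ ih).2 (h3 _)
    exact psi_end hTB hc i (2 * i + 1) (by omega) _ (h4 _)
  have hend : ∀ i k z, 2 * i < k → Psi c i k (s.ι i z) → z = 0 := fun i k z hk h =>
    hs.inj i z (psi_end hTB hc i k hk _ h)
  have hmem : ∀ i k, Psi c i k (s.ι i 0) := fun i k => by
    rw [hzero]
    exact psi_mem_zero hc i k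
  have hact : ∀ i γ k z, Psi c i k (s.ι i z) → Psi c i k (s.ι i (X'.act i γ z)) ∧
      (X'.Zero (2 * i - k) γ → Psi c i (k + 1) (s.ι i (X'.act i γ z))) := by
    intro i γ k z hz
    rw [hs.act]
    have h1 := psi_act hTB hc i k (s.φ γ) _ hz
    exact ⟨h1.1, fun h2 => h1.2 (hs.coh _ _ h2)⟩
  have huniq : ∀ π, IsCK X' π → ∀ i k z, InF X' π i k z ↔ Psi c i k (s.ι i z) :=
    fun π hπ i k z => unique hX' (Φ := fun k z => Psi c i k (s.ι i z))
      (fun z => psi_zero hc i _) (fun k z hk h => hend i k z hk h) (hmem i)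
      (fun γ k z h => (hact i γ k z h).1) (fun γ k z h1 h2 => (hact i γ k z h2).2 h1) hπ k z
  refine ⟨fun i => ⟨fun k z => Psi c i k (s.ι i z), fun z => psi_zero hc i _, fun z => ?_,
    fun γ k z h => hact i γ k z h, fun π hπ k z => huniq π hπ i k z⟩, fun hL π hπ i z hz => ?_⟩
  · show Psi c i 1 (s.ι i z) ↔ _
    rw [psi_one hc, hs.cl]
  · rw [huniq π hπ] at hz
    exact hs.inj i z (psi_lefschetz hTB hc hL i _ hz)

end Constant

section Classes

open Pool.Agent.W495.FM (Cycles IsChow TateHolds HasDim exists_dual cl_sum Coh)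

variable {p : ℕ} [Fact p.Prime] {ν : PadicAlgCl p ≃+* ℂ} {Ω : Type} [Field Ω] [IsAlgClosed Ω]
  [CharZero Ω]

/-- Rational and homological equivalence coincide if the Tate conjecture is true. -/
theorem cl_inj {Y : RedAV p ν} {C : Cycles Ω Y} (hC : IsChow C) (hT : TateHolds C) {c c' : ℕ}
    (hd : HasDim Y (c' + c)) (x : C.CH c) (hx : C.cl c x = 0) : x = 0 := by
  obtain ⟨r, y, z, -, hind, -, hexp⟩ := exists_dual hC hT hd
  have h1 : C.cl c x = ∑ a, ((C.int c' c (y a) x : ℚ) : Ω) • C.cl c (z a) := by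
    conv_lhs => rw [← hexp x]
    exact cl_sum hC c _ _
  rw [hx] at h1
  have h2 := Fintype.linearIndependent_iff.1 hind _ h1.symm
  rw [← hexp x]
  refine Finset.sum_eq_zero fun a _ => ?_
  have h3 : C.int c' c (y a) x = 0 := by exact_mod_cast h2 a
  rw [h3, zero_smul]

theorem inj_of {S : ∀ Y : RedAV p ν, Cycles Ω Y → Prop}
    (h : ∀ Y C, S Y C → IsChow C ∧ TateHolds C) {P : Cyc} (hP : IsSummandOfTwists S P) (i : ℕ)
    (z : P.A i) (hz : P.cl i z = 0) : z = 0 := by
  obtain ⟨n, Y, C, c, c', f, F, h1, h2⟩ := hP i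
  refine h2 z fun k => ?_
  obtain ⟨hS, hd, h0, hcl⟩ := h1 k
  obtain ⟨hC, hT⟩ := h _ _ hS
  refine cl_inj hC hT hd _ ?_
  rw [hcl, hz, h0]

theorem holdsFor_of {S : ∀ (Ω : Type) [Field Ω] [CharZero Ω] (Y : RedAV p ν), Cycles Ω Y → Prop}
    (h : ∀ (Ω : Type) [Field Ω] [IsAlgClosed Ω] [CharZero Ω] (Y : RedAV p ν) (C : Cycles Ω Y),
      S Ω Y C → IsChow C ∧ TateHolds C) : HoldsFor ν S :=
  fun Ω _ _ _ _ _ _ _ _ hP hX' hc hs => oneFiltration (inj_of (h Ω) hP) hc hs hX'

end Classes

end Pool.Agent.Run7.h312.MU
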