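import Mathlib
import Pool.Agent.Run7.h312.MU.Main
import Pool.Agent.TH117.GN.Main

/-!
# Isotrivial varieties over function fields: abelian varieties with elementary relations
-/

set_option autoImplicit false

namespace Pool.Agent.Run7.h312.MU

open Pool.Agent.W495.TA Pool.Agent.W495.FM Pool.Agent.TH117 Pool.Agent.TH117.GN

theorem elem (p : ℕ) [Fact p.Prime] (ν : PadicAlgCl p ≃+* ℂ) :
    (HoldsFor ν fun _ _ _ Y C => (∃ Z : RedAV p ν, BL.HasElementaryRelations Z ∧
      BL.IsPowersTimesSupersingular Z Y) ∧ IsChow C) ∧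
    ∀ Z : RedAV p ν, BL.IsGoodSet Z Set.univ → BL.HasElementaryRelations Z :=
  ⟨holdsFor_of fun _ _ _ _ _ _ h => ⟨h.2, tateHolds_elem h.1.choose_spec.1
    h.1.choose_spec.2 h.2⟩, fun _ h => elem_of_good h⟩

end Pool.Agent.Run7.h312.MU
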